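import Pool.Agent.Lib_helper44.G5.Defs
import Pool.Agent.Lib_helper44.G5.FED

/-! block SYM -/

namespace Pool.Agent.G5

open Pool.Agent.G4

open Complex MeasureTheory Filter Topology

variable {m : ℕ}

theorem SYM_comm (a b : ℕ × ℂ) (E : Fm) : opT a (opU b E) = opU b (opT a E) := by
  funext x u
  unfold opT opU
  simp only
  rw [show u + Real.log a.1 - Real.log b.1 = u - Real.log b.1 + Real.log a.1 by ring]
  ring

theorem SYM_comm1 (L : List (ℕ × ℂ)) (b : ℕ × ℂ) (E : Fm) :
    opTs L (opU b E) = opU b (opTs L E) := by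
  induction L with
  | nil => rfl
  | cons a L ih =>
    change opT a (opTs L (opU b E)) = opU b (opT a (opTs L E))
    rw [ih, SYM_comm]

theorem SYM_comm2 (L L' : List (ℕ × ℂ)) (E : Fm) :
    opTs L (opUs L' E) = opUs L' (opTs L E) := by
  induction L' with
  | nil => rfl
  | cons a L' ih =>
    change opTs L (opU a (opUs L' E)) = opU a (opUs L' (opTs L E))
    rw [SYM_comm1, ih]

/-- the relation of the functional equation -/
def SYMr (x : Ix) (l : ℝ) (W : ℂ) (E E' : Fm) : Prop :=
  ∀ u : ℝ, E x (-l - u) = W * starRingEnd ℂ (E' x (-l + u))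

theorem SYM_T {x : Ix} {l : ℝ} {W : ℂ} {E E' : Fm} (h : SYMr x l W E E') (a : ℕ × ℂ) :
    SYMr x l W (opT a E) (opU a E') := by
  intro u
  unfold opT opU
  have h1 := h u
  have h2 := h (u - Real.log a.1)
  rw [show -l - (u - Real.log a.1) = -l - u + Real.log a.1 by ring,
    show -l + (u - Real.log a.1) = -l + u - Real.log a.1 by ring] at h2
  rw [h1, h2]
  simp only [map_sub, map_mul, Complex.conj_conj, Complex.conj_ofReal]
  ring

theorem SYM_U {x : Ix} {l : ℝ} {W : ℂ} {E E' : Fm} (h : SYMr x l W E E') (a : ℕ × ℂ) :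
    SYMr x l W (opU a E) (opT a E') := by
  intro u
  unfold opT opU
  have h1 := h u
  have h2 := h (u + Real.log a.1)
  rw [show -l - (u + Real.log a.1) = -l - u - Real.log a.1 by ring,
    show -l + (u + Real.log a.1) = -l + u + Real.log a.1 by ring] at h2
  rw [h1, h2]
  simp only [map_sub, map_mul, Complex.conj_ofReal]
  ring

theorem SYM_Ts {x : Ix} {l : ℝ} {W : ℂ} {E E' : Fm} (h : SYMr x l W E E') (L : List (ℕ × ℂ)) :
    SYMr x l W (opTs L E) (opUs L E') := by
  induction L with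
  | nil => exact h
  | cons a L ih => exact SYM_T ih a

theorem SYM_Us {x : Ix} {l : ℝ} {W : ℂ} {E E' : Fm} (h : SYMr x l W E E') (L : List (ℕ × ℂ)) :
    SYMr x l W (opUs L E) (opTs L E') := by
  induction L with
  | nil => exact h
  | cons a L ih => exact SYM_U ih a

/-- SYM: functional equation of the symmetric family -/
theorem sym_EQ_pr {S : Sys m} (k : Kers S) (B : Finset ℕ) {x : Ix} (hx : x.q.Coprime S.N)
    (hp : x.2.IsPrimitive) : ∃ W : ℂ, ‖W‖ = 1 ∧ ∀ u : ℝ,
      EQ k B x (-ell S x - u) = W * starRingEnd ℂ (EQ k B x (-ell S x + u)) := by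
  obtain ⟨W, hW, h⟩ := fe_dens_pr k hx hp
  refine ⟨W, hW, ?_⟩
  have h1 : SYMr x (ell S x) W (Dx k) (Dx k) := h
  have h2 := SYM_Us (SYM_Ts h1 (facs S B)) (facs S B)
  rw [SYM_comm2] at h2
  exact h2

end Pool.Agent.G5
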