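import Pool.Agent.Lib_helper44.G5.Defs
import Pool.Agent.Lib_helper44.G5.MSW

/-! block FAMD -/

namespace Pool.Agent.G5

open Pool.Agent.G4

open Complex MeasureTheory Filter Topology

variable {m : ℕ}

theorem fam_D_pr {S : Sys m} (hm : m ≤ 4) (k : Kers S) : Fam S.N (Dx k) := by
  refine ⟨msw_cont k, fun x hx hp A => dens_decay_pr k hx hp A, ?_, msw_pr hm k⟩
  obtain ⟨CS, hCS⟩ := S.rs
  obtain ⟨C0, h0, hC0⟩ := db_bound_pr k.κ_pos (k.isKer 0) CS (A := 2) (by norm_num)
  obtain ⟨C1, h1, hC1⟩ := db_bound_pr k.κ_pos (k.isKer 1) CS (A := 2) (by norm_num)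
  refine ⟨C0 + C1, by positivity, fun x u => ?_⟩
  have he := (Real.exp_pos (-2 * u)).le
  have hpar : par x.2 = 0 ∨ par x.2 = 1 := by
    generalize par x.2 = δ
    revert δ
    decide
  unfold Dx
  rcases hpar with h | h
  · rw [h]
    refine (hC0 S.a hCS x u).trans ?_
    exact mul_le_mul_of_nonneg_right (by linarith) he
  · rw [h]
    refine (hC1 S.a hCS x u).trans ?_
    exact mul_le_mul_of_nonneg_right (by linarith) he

end Pool.Agent.G5
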