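import Pool.Agent.Lib_helper44.G5.Defs

/-! block ODDT -/

namespace Pool.Agent.G5

open Complex MeasureTheory Filter Topology

open Pool.Agent.G4 (par Ix ev pairs RSB IsKer D hatw smo)

/-- ODDT: parity of the order under multiplication -/
theorem oddZ_mul_pr {R Λ : ℂ → ℂ} (hR : Differentiable ℂ R) (hΛ : Differentiable ℂ Λ)
    (h : ∀ t : ℝ, analyticOrderAt R (1 / 2 + t * I) ≠ ⊤ ∧
      Even (analyticOrderNatAt R (1 / 2 + t * I))) (a b : ℝ) :
    oddZ (fun s => R s * Λ s) a b = oddZ Λ a b := by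
  have key : ∀ t : ℝ, Odd (analyticOrderNatAt (fun s => R s * Λ s) (1 / 2 + t * I)) ↔
      Odd (analyticOrderNatAt Λ (1 / 2 + t * I)) := by
    intro t
    obtain ⟨h1, h2⟩ := h t
    have h3 : (fun s => R s * Λ s) = R * Λ := rfl
    rw [h3]
    by_cases h4 : analyticOrderAt Λ (1 / 2 + t * I) = ⊤
    · have h5 : analyticOrderAt (R * Λ) (1 / 2 + t * I) = ⊤ :=
        analyticOrderAt_mul_eq_top_of_right h4
      unfold analyticOrderNatAt
      rw [h4, h5]
    · rw [analyticOrderNatAt_mul (hR.analyticAt _) (hΛ.analyticAt _) h1 h4, Nat.odd_add]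
      rw [Nat.odd_iff, Nat.even_iff, Nat.odd_iff]
      rw [Nat.even_iff] at h2
      omega
  ext t
  unfold oddZ
  simp only [Set.mem_setOf_eq]
  rw [key t]

end Pool.Agent.G5
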