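import Pool.Agent.Lib_helper44.G5.Defs
import Pool.Agent.Lib_helper44.G5Z.Defs

namespace Pool.Agent.G5

open Complex MeasureTheory Filter Topology

open Pool.Agent.G4

theorem za_max_pr {g : ℂ → ℂ} {a : ℝ} (hg : AnalyticOnNhd ℂ g {s | a < s.re})
    (h0 : ∃ s : ℂ, a < s.re ∧ g s ≠ 0) {K : Set ℂ} (hK : IsCompact K) {U : Set ℂ} (hU : IsOpen U)
    (hKU : K ⊆ U) (hUa : ∀ s ∈ U, a < s.re) : ∃ c : ℝ, 0 < c ∧ ∀ f : ℂ → ℂ,
      DifferentiableOn ℂ f U → (∀ s ∈ U, ‖g s * f s‖ ≤ c) → ∀ s ∈ K, ‖f s‖ < 1 := by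
  refine hK.induction_on (p := fun S => ∃ c : ℝ, 0 < c ∧ ∀ f : ℂ → ℂ,
      DifferentiableOn ℂ f U → (∀ s ∈ U, ‖g s * f s‖ ≤ c) → ∀ s ∈ S, ‖f s‖ < 1)
      ⟨1, one_pos, by simp⟩ ?_ ?_ ?_
  · rintro S T hST ⟨c, hc, h⟩
    exact ⟨c, hc, fun f hf hb s hs => h f hf hb s (hST hs)⟩
  · rintro S T ⟨c, hc, h⟩ ⟨c', hc', h'⟩
    refine ⟨min c c', lt_min hc hc', fun f hf hb s hs => ?_⟩
    rcases hs with hs | hs
    · exact h f hf (fun s hs => (hb s hs).trans (min_le_left _ _)) s hs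
    · exact h' f hf (fun s hs => (hb s hs).trans (min_le_right _ _)) s hs
  · intro s₀ hs₀
    have hs₀U := hKU hs₀
    have hs₀a : a < s₀.re := hUa _ hs₀U
    have hne : ∀ᶠ z in 𝓝[≠] s₀, g z ≠ 0 := by
      rcases (hg s₀ hs₀a).eventually_eq_zero_or_eventually_ne_zero with h | h
      · exfalso
        obtain ⟨s, hs, hgs⟩ := h0
        have hpre : IsPreconnected {s : ℂ | a < s.re} :=
          (convex_halfSpace_re_gt a).isPreconnected
        exact hgs (hg.eqOn_zero_of_preconnected_of_eventuallyEq_zero hpre hs₀a h hs)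
      · exact h
    rw [eventually_nhdsWithin_iff, Metric.eventually_nhds_iff] at hne
    obtain ⟨ε₁, hε₁, h1⟩ := hne
    obtain ⟨ε₂, hε₂, h2⟩ := Metric.isOpen_iff.1 hU s₀ hs₀U
    set r := min ε₁ ε₂ / 2 with hr
    have hmin : 0 < min ε₁ ε₂ := lt_min hε₁ hε₂
    have hr0 : 0 < r := by positivity
    have hrε : r < min ε₁ ε₂ := by rw [hr]; linarith
    have hr1 : r < ε₁ := hrε.trans_le (min_le_left _ _)
    have hr2 : r < ε₂ := hrε.trans_le (min_le_right _ _)
    have hcb : Metric.closedBall s₀ r ⊆ U := fun z hz =>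
      h2 (Metric.mem_ball.2 ((Metric.mem_closedBall.1 hz).trans_lt hr2))
    have hsn : ∀ z ∈ Metric.sphere s₀ r, g z ≠ 0 := by
      intro z hz
      have hz' : dist z s₀ = r := hz
      refine h1 (by rw [hz']; exact hr1) ?_
      rintro rfl
      rw [dist_self] at hz'
      linarith
    have hgc : ContinuousOn (fun z => ‖g z‖) (Metric.sphere s₀ r) := by
      refine ContinuousOn.norm ?_
      refine hg.continuousOn.mono fun z hz => ?_
      exact hUa z (hcb (Metric.sphere_subset_closedBall hz))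
    obtain ⟨z₁, hz₁, hmz⟩ := (isCompact_sphere s₀ r).exists_isMinOn
      (NormedSpace.sphere_nonempty.2 hr0.le) hgc
    have hm : 0 < ‖g z₁‖ := norm_pos_iff.2 (hsn z₁ hz₁)
    refine ⟨Metric.ball s₀ r, mem_nhdsWithin_of_mem_nhds (Metric.ball_mem_nhds _ hr0),
      ‖g z₁‖ / 2, by positivity, fun f hf hb s hs => ?_⟩
    have hcl : closure (Metric.ball s₀ r) = Metric.closedBall s₀ r := closure_ball s₀ hr0.ne'
    have hd : DiffContOnCl ℂ f (Metric.ball s₀ r) := by
      refine DifferentiableOn.diffContOnCl ?_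
      rw [hcl]
      exact hf.mono hcb
    have hC : ∀ z ∈ frontier (Metric.ball s₀ r), ‖f z‖ ≤ 1 / 2 := by
      intro z hz
      rw [frontier_ball s₀ hr0.ne'] at hz
      have h3 : ‖g z₁‖ ≤ ‖g z‖ := hmz hz
      have h4 := hb z (hcb (Metric.sphere_subset_closedBall hz))
      rw [norm_mul] at h4
      by_contra hcon
      push Not at hcon
      have h5 : ‖g z₁‖ * (1 / 2) < ‖g z‖ * ‖f z‖ := by
        calc ‖g z₁‖ * (1 / 2) < ‖g z₁‖ * ‖f z‖ := by
              exact mul_lt_mul_of_pos_left hcon hm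
          _ ≤ ‖g z‖ * ‖f z‖ := mul_le_mul_of_nonneg_right h3 (norm_nonneg _)
      linarith
    have h6 := Complex.norm_le_of_forall_mem_frontier_norm_le Metric.isBounded_ball hd hC
      (subset_closure hs)
    linarith

end Pool.Agent.G5
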